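import Pool.Agent.H891.FNC.Curve

/-!
MP_291982_ag: negative answers to Q1 and Q2.
-/

namespace Pool.Agent.Results.MP_291982_ag.SeparableGauss

open MvPolynomial Pool.Agent.H891.FNC

/-- For every prime p > 3 and every finite field K of characteristic p there is an absolutely
irreducible Frobenius nonclassical surface in projective 3-space over K whose Gauss map does not
admit powers of p as coordinate functions (negative answer to Q1), and which contains an
irreducible curve defined over K on which the Gauss map restricts to a separable map (negative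
answer to Q2). -/
theorem result (p : ℕ) [Fact p.Prime] (hp : 3 < p) (K : Type) [Field K] [Fintype K] [CharP K p] :
    ∃ F : MvPolynomial (Fin (3 + 1)) K,
      IsHypersurface F ∧ Irreducible (geom F) ∧ FrobeniusNonclassical F ∧
      ¬ GaussMapHasPowerCoordinates p (geom F) ∧
      ∃ I : Ideal (MvPolynomial (Fin (3 + 1)) (AlgebraicClosure K)),
        IsIrreducibleCurve I ∧ DefinedOver K I ∧ geom F ∈ I ∧
        (∃ i, pderiv i (geom F) ∉ I) ∧ ¬ InseparableOn p (geom F) I := by
  have hq : 2 ≤ Fintype.card K := Fintype.one_lt_card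
  have hq0 : (Fintype.card K : K) = 0 := FiniteField.cast_card_eq_zero K
  have hq0' : (Fintype.card K : AlgebraicClosure K) = 0 := by
    have := congrArg (algebraMap K (AlgebraicClosure K)) hq0
    rwa [map_natCast, map_zero] at this
  have hp0 : (p : AlgebraicClosure K) = 0 := CharP.cast_eq_zero _ p
  have h2 : (2 : AlgebraicClosure K) ≠ 0 := by
    intro h
    have h1 : ((2 : ℕ) : AlgebraicClosure K) = 0 := by exact_mod_cast h
    rw [CharP.cast_eq_zero_iff (AlgebraicClosure K) p 2] at h1
    have := Nat.le_of_dvd (by norm_num) h1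
    omega
  have hgeom : geom (FF K (Fintype.card K)) = FF (AlgebraicClosure K) (Fintype.card K) :=
    map_FF _
  refine ⟨FF K (Fintype.card K), ⟨⟨2 * Fintype.card K, by omega, FF_hom (by omega)⟩,
    (FF_irreducible hq).ne_zero, (FF_irreducible hq).squarefree⟩, ?_, FF_dvd_sum hq hq0, ?_,
    curve (AlgebraicClosure K), curve_isIrreducibleCurve _, curve_definedOver K, ?_, ⟨3, ?_⟩, ?_⟩
  · rw [hgeom]; exact FF_irreducible hq
  · rw [hgeom]; exact FF_not_power hp0 h2 hq hq0'
  · rw [hgeom, mem_curve]; exact par_FF _ (by omega)
  · rw [hgeom]; exact F3_not_mem _ hq hq0'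
  · rw [hgeom]; exact FF_separable_on_curve _ (Nat.Prime.ne_zero Fact.out) hp0 h2 hq hq0'

end Pool.Agent.Results.MP_291982_ag.SeparableGauss
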